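import Pool.Agent.AT10.Stmts1
import Pool.Agent.Helper50_PP.Ffa
import Pool.Agent.Helper25_AT2.Bru

/-!
# Squad AT10, row CHT: the coherence theorem
-/

open scoped BigOperators

set_option autoImplicit false

noncomputable section

namespace Pool.Agent.PP.T10.H79

open Pool.Agent.Helper51_AWC Pool.Agent.Helper79_WRA Pool.Agent.PP Pool.Agent.PP.KF
open Pool.Agent.PP.K9 Pool.Agent.PP.K9.H97 Pool.Agent.PP.H75 Pool.Agent.PP.T3 Pool.Agent.PP.T2
open Pool.Agent.PP.T5 Pool.Agent.PP.TB
open Pool.Agent.PP.T8 (rs pw fv rd Ip Rv)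

attribute [local instance] Ideal.Quotient.field

/-- the elements of an `ℓ`-group are `ℓ`-elements -/
theorem el_of_mem {G : Type} [Group G] {ℓ : ℕ} {P : Subgroup G} (hP : IsPGroup ℓ P) {u : G}
    (hu : u ∈ P) : El ℓ u := by
  obtain ⟨n, hn⟩ := hP ⟨u, hu⟩
  refine ⟨n, ?_⟩
  have := congrArg Subtype.val hn
  simpa using this

theorem cht (h1 : PdcStmt) (h2 : FiaStmt) (h3 : RosStmt) (h4 : GrnStmt) (h5 : GriStmt) :
    ChtStmt := by
  intro ℓ hℓ M hMm hM G _ _ ι _ c β hβ χ hχ H
  classical
  have hF : GoodF ℓ (FF M) := H50.fld ℓ Fact.out M hM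
  -- the value at zero
  have hz : ∀ u : G, El ℓ u → fi M c β (0 : G → FF M) χ u = 0 := by
    intro u hu
    have h := h2 ℓ M hM G ι c β hβ χ hχ u hu 0 0 (H46.mulF_zero 0) (H46.mulF_zero 0)
      (H46.mulF_zero 0) (H46.mulF_zero 0) (fun _ => rfl) (fun _ => rfl)
    rw [add_zero] at h
    have h' : fi M c β (0 : G → FF M) χ u + 0 =
        fi M c β (0 : G → FF M) χ u + fi M c β (0 : G → FF M) χ u := by
      rw [add_zero]
      exact h
    exact (add_left_cancel h').symm
  -- finite sums
  have hsum : ∀ (n : ℕ) (k : Fin n → G → FF M) (u : G), El ℓ u →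
      (∀ a, mulF (k a) (k a) = k a) → (∀ a b, a ≠ b → mulF (k a) (k b) = 0) →
      (∀ a x, k a (u * x * u⁻¹) = k a x) → ∀ s : Finset (Fin n),
      fi M c β (∑ a ∈ s, k a) χ u = ∑ a ∈ s, fi M c β (k a) χ u := by
    intro n k u hu hid horth hinv s
    induction s using Finset.induction_on with
    | empty => rw [Finset.sum_empty, Finset.sum_empty, hz u hu]
    | insert a s ha ih =>
      rw [Finset.sum_insert ha, Finset.sum_insert ha, ← ih]
      have hl : mulF (k a) (∑ b ∈ s, k b) = 0 := by
        rw [H25.mulF_sum]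
        refine Finset.sum_eq_zero fun b hb => horth a b ?_
        rintro rfl
        exact ha hb
      have hr : mulF (∑ b ∈ s, k b) (k a) = 0 := by
        rw [H25.sum_mulF]
        refine Finset.sum_eq_zero fun b hb => horth b a ?_
        rintro rfl
        exact ha hb
      have hs : mulF (∑ b ∈ s, k b) (∑ b ∈ s, k b) = ∑ b ∈ s, k b := by
        rw [H25.sum_mulF]
        refine Finset.sum_congr rfl fun b hb => ?_
        rw [H25.mulF_sum, Finset.sum_eq_single b]
        · exact hid b
        · intro b' _ hb'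
          exact horth b b' (Ne.symm hb')
        · intro hb'
          exact absurd hb hb'
      refine h2 ℓ M hM G ι c β hβ χ hχ u hu (k a) (∑ b ∈ s, k b) (hid a) hs hl hr (hinv a) ?_
      intro x
      rw [Finset.sum_apply, Finset.sum_apply]
      exact Finset.sum_congr rfl fun b _ => hinv b x
  -- the induction
  have key : ∀ n : ℕ, ∀ P : Subgroup G, Nat.card P = n → IsPGroup ℓ P → ∀ i : G → FF M,
      mulF i i = i → (∀ v ∈ P, ∀ x, i (v * x * v⁻¹) = i x) → Cf M P (fi M c β i χ) := by
    intro n
    induction n using Nat.strong_induction_on with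
    | _ n IH =>
      intro P hPn hP i hi hiv
      obtain ⟨m, k, hk, hko, hks⟩ := h1 (FF M) G P i hi hiv
      have hCk : ∀ a, Cf M P (fi M c β (k a) χ) := by
        intro a
        by_cases hb : br P (k a) = 0
        · obtain ⟨Q, u, b, hT⟩ := h3 ℓ (FF M) hF G P hP (k a) (hk a) hb
          obtain ⟨j, hTj, hj, hjo⟩ := h4 ℓ (FF M) hF G P hP (k a) (hk a) Q u b hT
          have hQP : IsPGroup ℓ Q := hP.to_le hTj.le
          have hlt : Nat.card Q < Nat.card P := by
            have hcard : Nat.card Q * Q.relIndex P = Nat.card P := by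
              have e := (Q.subgroupOf P).card_mul_index
              rw [Nat.card_congr (Subgroup.subgroupOfEquivOfLe hTj.le).toEquiv] at e
              exact e
            have hp2 : 2 ≤ ℓ := (Fact.out : ℓ.Prime).two_le
            have hpos : 0 < Nat.card Q := Nat.card_pos
            rw [← hcard, hTj.ix]
            nlinarith
          have hQ := IH (Nat.card Q) (hPn ▸ hlt) Q rfl hQP j hj hTj.iv
          exact h5 ℓ M hM G ι c β hβ χ hχ P Q u j (k a) hP (hk a).iv hTj hj hjo hQ
        · exact H P hP (k a) (hk a) hb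
      intro κ hκ
      have e1 : ∀ u : P, fi M c β i χ (u : G) = ∑ a, fi M c β (k a) χ (u : G) := by
        intro u
        rw [← hks]
        exact hsum m k (u : G) (el_of_mem hP u.2) (fun a => (hk a).id) hko
          (fun a => (hk a).iv (u : G) u.2) Finset.univ
      have e2 : (∑ᶠ u : P, fi M c β i χ (u : G) * κ u) =
          ∑ a, ∑ᶠ u : P, fi M c β (k a) χ (u : G) * κ u := by
        have : Fintype P := Fintype.ofFinite P
        simp only [finsum_eq_sum_of_fintype]
        rw [Finset.sum_comm]
        refine Finset.sum_congr rfl fun u _ => ?_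
        rw [e1 u, Finset.sum_mul]
      rw [e2, Finset.mul_sum]
      exact Subring.sum_mem _ fun a _ => hCk a κ hκ
  intro P hP i hi hiv
  exact key _ P rfl hP i hi hiv

end Pool.Agent.PP.T10.H79
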