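import Pool.Agent.AT10.Stmts2
import Pool.Agent.Helper81_AT5.SEI
import Pool.Agent.Helper32_AT5.ZIM

/-!
# Squad AT10, row FRG: averages over the `ℓ`-elements (Frobenius, permutation character)
-/

open scoped BigOperators

set_option autoImplicit false

noncomputable section

namespace Pool.Agent.PP.T10.H79

open Pool.Agent.Helper51_AWC Pool.Agent.Helper79_WRA Pool.Agent.PP Pool.Agent.PP.KF
open Pool.Agent.PP.K9 Pool.Agent.PP.K9.H97 Pool.Agent.PP.H75 Pool.Agent.PP.T3 Pool.Agent.PP.T2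
open Pool.Agent.PP.T5 Pool.Agent.PP.TB
open Pool.Agent.PP.T8 (rs pw fv rd Ip Rv)
open Pool.Agent.PP.T5.H81 (indt indt_zi indt_zero)

attribute [local instance] Ideal.Quotient.field

section perm

variable {C : Type} [Group C] [Finite C]

/-- the number of the fixed points of `u` on the cosets of `P` -/
def fx (P : Subgroup C) (u : C) : ℕ := Nat.card {q : C ⧸ P | u • q = q}

omit [Finite C] in
theorem mem_iff_fix (P : Subgroup C) (u x : C) :
    x⁻¹ * u * x ∈ P ↔ u • (x : C ⧸ P) = (x : C ⧸ P) := by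
  have h1 : u • (x : C ⧸ P) = ((u * x : C) : C ⧸ P) := rfl
  rw [h1, eq_comm, QuotientGroup.eq, mul_assoc]

theorem indt_eq (P : Subgroup C) (u : C) : indt P u = fx P u := by
  classical
  have := Fintype.ofFinite C
  unfold indt
  rw [finsum_eq_sum_of_fintype]
  have h1 : ∑ x : C, (if x⁻¹ * u * x ∈ P then (1 : ℂ) else 0) =
      (Nat.card (QuotientGroup.mk ⁻¹' {q : C ⧸ P | u • q = q} : Set C) : ℂ) := by
    rw [Finset.sum_ite, Finset.sum_const_zero, add_zero, Finset.sum_const, nsmul_eq_mul, mul_one]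
    congr 1
    rw [Nat.card_eq_fintype_card, Fintype.card_subtype]
    congr 1
    ext x
    simp only [Finset.mem_filter, Finset.mem_univ, true_and, Set.mem_preimage, Set.mem_ofPred_eq]
    exact mem_iff_fix P u x
  rw [h1, QuotientGroup.card_preimage_mk]
  have h2 : (Nat.card P : ℂ) ≠ 0 := by exact_mod_cast Nat.card_pos.ne'
  unfold fx
  push_cast
  field_simp

theorem fx_modEq {ℓ : ℕ} [Fact ℓ.Prime] (P : Subgroup C) {u : C} (hu : El ℓ u) :
    P.index ≡ fx P u [MOD ℓ] := by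
  obtain ⟨n, hn⟩ := hu
  have hz : IsPGroup ℓ (Subgroup.zpowers u) := by
    rw [IsPGroup.iff_card] at *
    have h1 : orderOf u ∣ ℓ ^ n := orderOf_dvd_of_pow_eq_one hn
    obtain ⟨k, _, hk⟩ := (Nat.dvd_prime_pow (Fact.out : ℓ.Prime)).1 h1
    exact ⟨k, by rw [Nat.card_zpowers, hk]⟩
  have h2 := hz.card_modEq_card_fixedPoints (C ⧸ P)
  have h3 : Nat.card (MulAction.fixedPoints (Subgroup.zpowers u) (C ⧸ P)) = fx P u := by
    unfold fx
    congr 1
    have h4 : (MulAction.fixedPoints (Subgroup.zpowers u) (C ⧸ P)) =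
        {q : C ⧸ P | u • q = q} := by
      ext q
      constructor
      · intro h
        exact h ⟨u, Subgroup.mem_zpowers u⟩
      · intro h g
        obtain ⟨g, k, rfl⟩ := g
        have h5 : u ∈ MulAction.stabilizer C q := h
        exact Subgroup.zpow_mem _ h5 k
    rw [h4]
  rw [h3] at h2
  exact h2

theorem fx_conj (P : Subgroup C) (x u : C) : (fx P (x * u * x⁻¹) : ℂ) = fx P u := by
  rw [← indt_eq, ← indt_eq]
  exact K9.H25.zi_cl (indt_zi P) _ _

end perm

theorem inv_mem_RM {M : Ideal (integralClosure ℤ ℂ)} [M.IsMaximal] {ℓ : ℕ} (hℓ : ℓ.Prime)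
    (hM : (ℓ : integralClosure ℤ ℂ) ∈ M) {n : ℕ} (hn : ¬ ℓ ∣ n) : ((n : ℂ))⁻¹ ∈ RM M := by
  have h1 : rr M ((n : ℤ) : ℂ) ≠ 0 := by
    intro h
    exact hn (by exact_mod_cast (dvd_of_rr hℓ hM).1 h)
  have h2 := (inv_RM (rr_int (M := M) (n : ℤ)).1 h1).1
  simpa using h2

theorem pow_mem_ZI {C : Type} [Group C] [Finite C] {f : C → ℂ} (hf : f ∈ ZI C) (n : ℕ) :
    (fun x => f x ^ n) ∈ ZI C := by
  induction n with
  | zero =>
    simp only [pow_zero]
    exact AddSubgroup.subset_closure T5.H81.one_irr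
  | succ n ih =>
    simp only [pow_succ]
    exact T5.H32.mul_mem_ZI ih hf

/-- FRG -/
theorem frg : FrgStmt := by
  intro ℓ hℓ M hMm hM C _ _ P h hcl hR hκ
  classical
  have := Fintype.ofFinite C
  have := Fintype.ofFinite (P : Subgroup C)
  have hp : ℓ.Prime := Fact.out
  -- the index is prime to `ℓ`
  have hidx : ¬ ℓ ∣ (P : Subgroup C).index := P.not_dvd_index
  have hPC : Nat.card (P : Subgroup C) * (P : Subgroup C).index = Nat.card C :=
    (P : Subgroup C).card_mul_index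
  obtain ⟨A, hA⟩ := IsPGroup.iff_card.1 P.isPGroup'
  set m : ℕ := Nat.totient (ℓ ^ A) with hm
  have hmpos : 0 < m := Nat.totient_pos.2 (pow_pos hp.pos A)
  set f : C → ℕ := fx (P : Subgroup C) with hf
  -- Euler
  have heul : ∀ u : C, El ℓ u → ∃ k : ℤ, (f u : ℂ) ^ m = 1 + (Nat.card (P : Subgroup C) : ℂ) * k := by
    intro u hu
    have h1 : ¬ ℓ ∣ f u := by
      intro h2
      exact hidx ((Nat.ModEq.dvd_iff (fx_modEq (P : Subgroup C) hu) dvd_rfl).2 h2)
    have h3 : Nat.Coprime (f u) (ℓ ^ A) :=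
      Nat.Coprime.pow_right _ ((Nat.Prime.coprime_iff_not_dvd hp).2 h1).symm
    have h4 := Nat.ModEq.pow_totient h3
    have h5 : ((ℓ ^ A : ℕ) : ℤ) ∣ ((f u ^ m : ℕ) : ℤ) - (1 : ℕ) :=
      (Nat.modEq_iff_dvd.1 h4.symm)
    obtain ⟨k, hk⟩ := h5
    refine ⟨k, ?_⟩
    have h6 : ((f u ^ m : ℕ) : ℤ) = 1 + (ℓ ^ A : ℕ) * k := by
      push_cast at hk ⊢
      linarith
    have h7 : (((f u ^ m : ℕ) : ℤ) : ℂ) = ((1 + (ℓ ^ A : ℕ) * k : ℤ) : ℂ) := by rw [h6]
    rw [hA]
    push_cast at h7 ⊢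
    exact h7
  -- zero away from the `ℓ`-elements
  have hzero : ∀ u : C, ¬ El ℓ u → (f u : ℂ) = 0 := by
    intro u hu
    rw [hf, ← indt_eq]
    exact indt_zero P.isPGroup' hu
  have hC0 : (Nat.card C : ℂ) ≠ 0 := by exact_mod_cast Nat.card_pos.ne'
  have hP0 : (Nat.card (P : Subgroup C) : ℂ) ≠ 0 := by exact_mod_cast Nat.card_pos.ne'
  -- part (i)
  have hi : (Nat.card C : ℂ)⁻¹ * ∑ u : C, h u * (f u : ℂ) ^ m =
      (Nat.card (P : Subgroup C) : ℂ)⁻¹ *
        ∑ᶠ u : (P : Subgroup C), h (u : C) * (f (u : C) : ℂ) ^ (m - 1) := by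
    have e1 : ∀ u : C, h u * (f u : ℂ) ^ m = (Nat.card (P : Subgroup C) : ℂ)⁻¹ *
        ∑ x : C, (if x⁻¹ * u * x ∈ (P : Subgroup C) then
          h (x⁻¹ * u * x) * (f (x⁻¹ * u * x) : ℂ) ^ (m - 1) else 0) := by
      intro u
      have e2 : (f u : ℂ) ^ m = (f u : ℂ) ^ (m - 1) * indt (P : Subgroup C) u := by
        rw [indt_eq, ← pow_succ, Nat.sub_add_cancel hmpos]
      rw [e2]
      unfold indt
      rw [finsum_eq_sum_of_fintype]
      have e3 : ∀ x : C, (if x⁻¹ * u * x ∈ (P : Subgroup C) then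
          h (x⁻¹ * u * x) * (f (x⁻¹ * u * x) : ℂ) ^ (m - 1) else 0) =
          h u * (f u : ℂ) ^ (m - 1) * (if x⁻¹ * u * x ∈ (P : Subgroup C) then (1 : ℂ) else 0) := by
        intro x
        have e4 : h (x⁻¹ * u * x) = h u := by
          have := hcl u x⁻¹
          rwa [inv_inv] at this
        have e5 : (f (x⁻¹ * u * x) : ℂ) = f u := by
          have := fx_conj (P : Subgroup C) x⁻¹ u
          rwa [inv_inv] at this
        rw [e4, e5]
        split_ifs
        · rw [mul_one]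
        · rw [mul_zero]
      rw [Finset.sum_congr rfl fun x _ => e3 x, ← Finset.mul_sum]
      ring
    rw [Finset.sum_congr rfl fun u _ => e1 u, ← Finset.mul_sum, Finset.sum_comm]
    have e6 : ∀ x : C, ∑ u : C, (if x⁻¹ * u * x ∈ (P : Subgroup C) then
          h (x⁻¹ * u * x) * (f (x⁻¹ * u * x) : ℂ) ^ (m - 1) else 0) =
        ∑ᶠ u : (P : Subgroup C), h (u : C) * (f (u : C) : ℂ) ^ (m - 1) := by
      intro x
      have e7 : ∑ u : C, (if x⁻¹ * u * x ∈ (P : Subgroup C) then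
          h (x⁻¹ * u * x) * (f (x⁻¹ * u * x) : ℂ) ^ (m - 1) else 0) =
          ∑ v : C, (if v ∈ (P : Subgroup C) then h v * (f v : ℂ) ^ (m - 1) else 0) := by
        refine Fintype.sum_equiv (MulAut.conj x⁻¹).toEquiv _ _ fun u => ?_
        have e8 : (MulAut.conj x⁻¹).toEquiv u = x⁻¹ * u * x := by
          simp
        rw [e8]
      rw [e7, finsum_eq_sum_of_fintype, ← Finset.sum_filter]
      exact Finset.sum_subtype _ (by simp) _
    rw [Finset.sum_congr rfl fun x _ => e6 x, Finset.sum_const, Finset.card_univ, nsmul_eq_mul,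
      ← Nat.card_eq_fintype_card]
    field_simp
  have hi2 : (Nat.card C : ℂ)⁻¹ * ∑ u : C, h u * (f u : ℂ) ^ m ∈ RM M := by
    rw [hi]
    have h1 := hκ (fun u => indt (P : Subgroup C) u ^ (m - 1))
      (pow_mem_ZI (indt_zi (P : Subgroup C)) (m - 1))
    simp only [indt_eq] at h1
    exact h1
  -- part (ii)
  have hk : ∀ u : C, ∃ k : ℤ, El ℓ u →
      (f u : ℂ) ^ m = 1 + (Nat.card (P : Subgroup C) : ℂ) * k := by
    intro u
    by_cases hu : El ℓ u
    · obtain ⟨k, hk⟩ := heul u hu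
      exact ⟨k, fun _ => hk⟩
    · exact ⟨0, fun h => absurd h hu⟩
  choose k hk using hk
  have e9 : (∑ᶠ (u : C) (_ : El ℓ u), h u) = ∑ u : C, if El ℓ u then h u else 0 := by
    rw [finsum_eq_sum_of_fintype]
    refine Finset.sum_congr rfl fun u _ => ?_
    by_cases hu : El ℓ u
    · rw [finsum_eq_if, if_pos hu]
    · rw [finsum_eq_if, if_neg hu]
  have e10 : (Nat.card C : ℂ)⁻¹ * (∑ u : C, if El ℓ u then h u else 0) =
      (Nat.card C : ℂ)⁻¹ * (∑ u : C, h u * (f u : ℂ) ^ m) -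
        (((P : Subgroup C).index : ℂ))⁻¹ * ∑ u : C, (if El ℓ u then h u * k u else 0) := by
    have e11 : (∑ u : C, if El ℓ u then h u else 0) = (∑ u : C, h u * (f u : ℂ) ^ m) -
        (Nat.card (P : Subgroup C) : ℂ) * ∑ u : C, (if El ℓ u then h u * k u else 0) := by
      rw [Finset.mul_sum, ← Finset.sum_sub_distrib]
      refine Finset.sum_congr rfl fun u _ => ?_
      by_cases hu : El ℓ u
      · rw [if_pos hu, if_pos hu, hk u hu]
        ring
      · rw [if_neg hu, if_neg hu, hzero u hu, zero_pow hmpos.ne']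
        ring
    rw [e11, mul_sub, ← hPC]
    congr 1
    have h1 : ((P : Subgroup C).index : ℂ) ≠ 0 := by
      exact_mod_cast (Subgroup.index_ne_zero_of_finite (H := (P : Subgroup C)))
    push_cast
    field_simp
  rw [e9, e10]
  refine Subring.sub_mem _ hi2 (Subring.mul_mem _ (inv_mem_RM hp hM hidx)
    (Subring.sum_mem _ fun u _ => ?_))
  split_ifs
  · exact Subring.mul_mem _ (hR u) (intCast_mem (RM M) _)
  · exact Subring.zero_mem _

end Pool.Agent.PP.T10.H79
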